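import Mathlib
import Pool.Agent.Lib.MP_598ba0_lc.UltI

/-!
# MP_598ba0_lc: existence of forcing-valued uniform ultrafilters on `κ_n` (Task S4a)
-/

namespace Pool.MP_598ba0_lc

open Set Cardinal Name Cond

namespace UltNEx

variable {n : ℕ}

/-- merging the low part of a condition below `low n q` with `q` gives a condition below `q` -/
lemma mrg_le_of_le_low {q r : Cond} (h : r ≤ low n q) : mrg r (⟨q⟩ : Tl n) ≤ q := by
  have h1 : mrg r (⟨q⟩ : Tl n) ≤ mrg (low n q) (⟨q⟩ : Tl n) := mrg_mono' h le_rfl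
  rwa [mrg_low, mrg_self] at h1

lemma le_low_of_low_eq {s t : Cond} (h : low n s = low n t) : s ≤ low n t := by
  rw [← h]; exact le_low s

/-- density below `q` of a low property is density below `low n q` -/
lemma dense_low {P : Cond → Prop} (mono : ∀ s t, P s → t ≤ s → P t) (hlow : ∀ s, P s → P (low n s))
    {q : Cond} (h : ∀ r ≤ q, ∃ s ≤ r, P s) : ∀ r ≤ low n q, ∃ s ≤ r, P s := by
  intro r hr
  obtain ⟨s, hs, hP⟩ := h _ (mrg_le_of_le_low hr)
  refine ⟨mrg s (⟨r⟩ : Tl n), ?_, ?_⟩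
  · apply mrg_le_of_le_low
    refine hs.trans ?_
    have h1 := le_low (m := n) (mrg r (⟨q⟩ : Tl n))
    rwa [low_mrg] at h1
  · refine mono _ _ (hlow s hP) ?_
    apply le_low_of_low_eq
    rw [low_mrg]

lemma isLow_mem {c : LowerSet Cond} (hc : IsLow n c) {q r : Cond} (h : r ∈ c) :
    mrg r (⟨q⟩ : Tl n) ∈ c := by
  rw [hc, low_mrg]
  exact (hc r).1 h

lemma isLow_dense {c : LowerSet Cond} (hc : IsLow n c) {q : Cond} (h : ∀ r ≤ q, ∃ s ≤ r, s ∈ c) :
    ∀ r ≤ low n q, ∃ s ≤ r, s ∈ c :=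
  dense_low (P := fun s => s ∈ c) (fun _ _ hs ht => c.lower ht hs) (fun s hs => (hc s).1 hs) h

lemma isLow_cpl {c : LowerSet Cond} (hc : IsLow n c) : IsLow n (cpl c) := by
  intro q
  constructor
  · intro h r hr hrc
    exact h _ (mrg_le_of_le_low hr) (isLow_mem hc hrc)
  · intro h
    exact (cpl c).lower (le_low q) h

lemma isLow_top : IsLow n (⊤ : LowerSet Cond) := fun _ => ⟨fun _ => trivial, fun _ => trivial⟩

lemma isLow_bot : IsLow n (⊥ : LowerSet Cond) := fun _ => ⟨fun h => h.elim, fun h => h.elim⟩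

lemma isLow_inf {c d : LowerSet Cond} (hc : IsLow n c) (hd : IsLow n d) : IsLow n (c ⊓ d) := by
  intro q
  show (q ∈ c ∧ q ∈ d) ↔ (low n q ∈ c ∧ low n q ∈ d)
  rw [hc q, hd q]

open Classical in
/-- tails -/
noncomputable def tl (y : K (some n)) : K (some n) → LowerSet Cond :=
  fun x => if y ≤ x then ⊤ else ⊥

lemma isLow_tl (y x : K (some n)) : IsLow n (tl y x) := by
  unfold tl
  split_ifs
  · exact isLow_top
  · exact isLow_bot

/-- all fields but the last one -/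
structure Pre (n : ℕ) (UU : (K (some n) → LowerSet Cond) → Cond → Prop) : Prop where
  isLow : ∀ b q, UU b q → ∀ x, IsLow n (b x)
  mono : ∀ b q r, UU b q → r ≤ q → UU b r
  lowq : ∀ b q, UU b q → UU b (low n q)
  up : ∀ b b' q, UU b q → (∀ x, IsLow n (b' x)) →
    (∀ x, ∀ r ≤ q, r ∈ b x → ∃ s ≤ r, s ∈ b' x) → UU b' q
  inter : ∀ b b' q, UU b q → UU b' q → UU (fun x => b x ⊓ b' x) q
  top : ∀ q, UU (fun _ => ⊤) q
  tail : ∀ y q, UU (tl y) q
  unbdd : ∀ b q, UU b q → ∀ y : K (some n), ¬ ∀ x, y ≤ x → ∀ r ≤ q, r ∉ b x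

lemma nonempty_K : Nonempty (K (some n)) := by
  rw [← mk_ne_zero_iff, mk_K]
  exact (lt_of_lt_of_le aleph0_pos (al_lv (some n))).ne'

/-- the filter of co-bounded sets -/
def base (n : ℕ) (b : K (some n) → LowerSet Cond) (q : Cond) : Prop :=
  (∀ x, IsLow n (b x)) ∧ ∃ y, ∀ x, y ≤ x → ∀ r ≤ q, ∃ s ≤ r, s ∈ b x

lemma pre_base : Pre n (base n) where
  isLow b q h := h.1
  mono b q r h hr := ⟨h.1, h.2.imp fun y hy x hx t ht => hy x hx t (ht.trans hr)⟩
  lowq b q h := ⟨h.1, h.2.imp fun y hy x hx => isLow_dense (h.1 x) (hy x hx)⟩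
  up b b' q h hb' hbb' := ⟨hb', h.2.imp fun y hy x hx r hr => by
    obtain ⟨s, hs, hsb⟩ := hy x hx r hr
    obtain ⟨t, ht, htb⟩ := hbb' x s (hs.trans hr) hsb
    exact ⟨t, ht.trans hs, htb⟩⟩
  inter b b' q h h' := by
    refine ⟨fun x => isLow_inf (h.1 x) (h'.1 x), ?_⟩
    obtain ⟨y, hy⟩ := h.2
    obtain ⟨y', hy'⟩ := h'.2
    refine ⟨max y y', fun x hx r hr => ?_⟩
    obtain ⟨s, hs, hsb⟩ := hy x ((le_max_left _ _).trans hx) r hr
    obtain ⟨t, ht, htb⟩ := hy' x ((le_max_right _ _).trans hx) s (hs.trans hr)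
    exact ⟨t, ht.trans hs, (b x).lower ht hsb, htb⟩
  top q := by
    refine ⟨fun _ => isLow_top, nonempty_K.some, fun x _ r _ => ⟨r, le_rfl, trivial⟩⟩
  tail y q := by
    refine ⟨fun x => isLow_tl y x, y, fun x hx r _ => ⟨r, le_rfl, ?_⟩⟩
    unfold tl
    rw [if_pos hx]
    trivial
  unbdd b q h y hcon := by
    obtain ⟨y', hy'⟩ := h.2
    obtain ⟨s, hs, hsb⟩ := hy' (max y y') (le_max_right _ _) q le_rfl
    exact hcon (max y y') (le_max_left _ _) s hs hsb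

lemma pre_chain {c : Set ((K (some n) → LowerSet Cond) → Cond → Prop)}
    (hc : ∀ U ∈ c, Pre n U) (hch : IsChain (· ≤ ·) c) (hne : c.Nonempty) :
    Pre n (fun b q => ∃ U ∈ c, U b q) where
  isLow b q := by
    rintro ⟨U, hU, h⟩
    exact (hc U hU).isLow b q h
  mono b q r := by
    rintro ⟨U, hU, h⟩ hr
    exact ⟨U, hU, (hc U hU).mono b q r h hr⟩
  lowq b q := by
    rintro ⟨U, hU, h⟩
    exact ⟨U, hU, (hc U hU).lowq b q h⟩
  up b b' q := by
    rintro ⟨U, hU, h⟩ h1 h2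
    exact ⟨U, hU, (hc U hU).up b b' q h h1 h2⟩
  inter b b' q := by
    rintro ⟨U, hU, h⟩ ⟨U', hU', h'⟩
    rcases hch.total hU hU' with h1 | h1
    · exact ⟨U', hU', (hc U' hU').inter b b' q (h1 b q h) h'⟩
    · exact ⟨U, hU, (hc U hU).inter b b' q h (h1 b' q h')⟩
  top q := by
    obtain ⟨U, hU⟩ := hne
    exact ⟨U, hU, (hc U hU).top q⟩
  tail y q := by
    obtain ⟨U, hU⟩ := hne
    exact ⟨U, hU, (hc U hU).tail y q⟩
  unbdd b q := by
    rintro ⟨U, hU, h⟩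
    exact (hc U hU).unbdd b q h

/-- the condition which generates the extension -/
def ext (UU : (K (some n) → LowerSet Cond) → Cond → Prop) (f : K (some n) → LowerSet Cond)
    (q : Cond) (g : K (some n) → LowerSet Cond) (s : Cond) : Prop :=
  UU g s ∨ (s ≤ low n q ∧ ∃ h, UU h s ∧ ∀ x, ∀ r ≤ s, r ∈ h x → r ∈ f x → ∃ t ≤ r, t ∈ g x)

lemma pre_ext {UU : (K (some n) → LowerSet Cond) → Cond → Prop} (hU : Pre n UU)
    {f : K (some n) → LowerSet Cond} (hf : ∀ x, IsLow n (f x)) {q : Cond}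
    (hq : ∀ r ≤ q, ¬ UU (fun x => cpl (f x)) r) :
    Pre n (fun g s => (∀ x, IsLow n (g x)) ∧ ∀ s' ≤ s, ∃ s'' ≤ s', ext UU f q g s'') := by
  have emono : ∀ g s t, ext UU f q g s → t ≤ s → ext UU f q g t := by
    rintro g s t (h | ⟨h1, h, h2, h3⟩) ht
    · exact Or.inl (hU.mono _ _ _ h ht)
    · exact Or.inr ⟨ht.trans h1, h, hU.mono _ _ _ h2 ht, fun x r hr => h3 x r (hr.trans ht)⟩
  refine
    { isLow := fun b q h => h.1
      mono := fun b q r h hr => ⟨h.1, fun s' hs' => h.2 s' (hs'.trans hr)⟩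
      lowq := ?_
      up := ?_
      inter := ?_
      top := fun s => ⟨fun _ => isLow_top, fun s' _ => ⟨s', le_rfl, Or.inl (hU.top s')⟩⟩
      tail := fun y s => ⟨fun x => isLow_tl y x, fun s' _ => ⟨s', le_rfl, Or.inl (hU.tail y s')⟩⟩
      unbdd := ?_ }
  · intro g s h
    refine ⟨h.1, dense_low (emono g) ?_ h.2⟩
    rintro s (h4 | ⟨h1, h', h2, h3⟩)
    · exact Or.inl (hU.lowq _ _ h4)
    · refine Or.inr ⟨?_, h', hU.lowq _ _ h2, ?_⟩
      · have := low_mono (m := n) h1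
        rwa [low_low] at this
      · intro x r hr hrh hrf
        obtain ⟨t, ht, htg⟩ := h3 x _ (mrg_le_of_le_low hr) (isLow_mem (hU.isLow _ _ h2 x) hrh)
          (isLow_mem (hf x) hrf)
        refine ⟨mrg t (⟨r⟩ : Tl n), ?_, isLow_mem (h.1 x) htg⟩
        apply mrg_le_of_le_low
        refine ht.trans ?_
        have h5 := le_low (m := n) (mrg r (⟨s⟩ : Tl n))
        rwa [low_mrg] at h5
  · intro g g' s h hg' hgg'
    refine ⟨hg', fun s' hs' => ?_⟩
    obtain ⟨s'', hs'', h4 | ⟨h1, h', h2, h3⟩⟩ := h.2 s' hs'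
    · exact ⟨s'', hs'', Or.inl (hU.up g g' s'' h4 hg'
        (fun x r hr => hgg' x r (hr.trans (hs''.trans hs'))))⟩
    · refine ⟨s'', hs'', Or.inr ⟨h1, h', h2, fun x r hr hrh hrf => ?_⟩⟩
      obtain ⟨t, ht, htg⟩ := h3 x r hr hrh hrf
      obtain ⟨u, hu, hug⟩ := hgg' x t (ht.trans (hr.trans (hs''.trans hs'))) htg
      exact ⟨u, hu.trans ht, hug⟩
  · intro g g' s h h'
    refine ⟨fun x => isLow_inf (h.1 x) (h'.1 x), fun s' hs' => ?_⟩
    obtain ⟨s1, hs1, e1⟩ := h.2 s' hs'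
    obtain ⟨s2, hs2, e2⟩ := h'.2 s1 (hs1.trans hs')
    have e1 := emono g s1 s2 e1 hs2
    refine ⟨s2, hs2.trans hs1, ?_⟩
    rcases e1 with e1 | ⟨a1, k1, b1, c1⟩
    · rcases e2 with e2 | ⟨a2, k2, b2, c2⟩
      · exact Or.inl (hU.inter _ _ _ e1 e2)
      · refine Or.inr ⟨a2, _, hU.inter _ _ _ e1 b2, ?_⟩
        rintro x r hr ⟨hr1, hr2⟩ hrf
        obtain ⟨t, ht, htg⟩ := c2 x r hr hr2 hrf
        exact ⟨t, ht, (g x).lower ht hr1, htg⟩
    · rcases e2 with e2 | ⟨a2, k2, b2, c2⟩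
      · refine Or.inr ⟨a1, _, hU.inter _ _ _ b1 e2, ?_⟩
        rintro x r hr ⟨hr1, hr2⟩ hrf
        obtain ⟨t, ht, htg⟩ := c1 x r hr hr1 hrf
        exact ⟨t, ht, htg, (g' x).lower ht hr2⟩
      · refine Or.inr ⟨a1, _, hU.inter _ _ _ b1 b2, ?_⟩
        rintro x r hr ⟨hr1, hr2⟩ hrf
        obtain ⟨t, ht, htg⟩ := c1 x r hr hr1 hrf
        obtain ⟨u, hu, hug⟩ := c2 x t (ht.trans hr) ((k2 x).lower ht hr2) ((f x).lower ht hrf)
        exact ⟨u, hu.trans ht, (g x).lower hu htg, hug⟩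
  · intro g s h y hcon
    obtain ⟨s'', hs'', h4 | ⟨h1, k, h2, h3⟩⟩ := h.2 s le_rfl
    · exact hU.unbdd g s'' h4 y fun x hx r hr => hcon x hx r (hr.trans hs'')
    · have h5 := hU.inter _ _ _ h2 (hU.tail y s'')
      have h6 : UU (fun x => cpl (f x)) s'' := by
        refine hU.up _ _ _ h5 (fun x => isLow_cpl (hf x)) ?_
        rintro x r hr ⟨hr1, hr2⟩
        refine ⟨r, le_rfl, fun t ht htf => ?_⟩
        have hyx : y ≤ x := by
          by_contra hyx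
          have : r ∈ tl y x := hr2
          unfold tl at this
          rw [if_neg hyx] at this
          exact this
        obtain ⟨u, hu, hug⟩ := h3 x t (ht.trans hr) ((k x).lower ht hr1) htf
        exact hcon x hyx u (hu.trans (ht.trans (hr.trans hs''))) hug
      refine hq _ (mrg_le_of_le_low h1) (hU.mono _ _ _ (hU.lowq _ _ h6) ?_)
      apply le_low_of_low_eq
      rw [low_mrg]

end UltNEx

open UltNEx in
theorem exists_UltN (n : ℕ) : ∃ UU : (K (some n) → LowerSet Cond) → Cond → Prop, UltN n UU := by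
  obtain ⟨UU, -, hmax⟩ := zorn_le_nonempty₀ {U | Pre n U} (fun c hc hch U hU =>
    ⟨fun b q => ∃ U ∈ c, U b q, pre_chain hc hch ⟨U, hU⟩,
      fun V hV b q h => ⟨V, hV, h⟩⟩) (base n) pre_base
  have hU : Pre n UU := hmax.prop
  refine ⟨UU, hU.isLow, hU.mono, hU.lowq, hU.up, hU.inter, hU.top, hU.unbdd, ?_⟩
  intro f hf q
  by_contra hcon
  push Not at hcon
  have h1 := pre_ext hU hf (q := q) (fun r hr => (hcon r hr).2)
  have h2 := hmax.le_of_ge h1 (fun g s hgs => ⟨hU.isLow g s hgs, fun s' hs' =>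
    ⟨s', le_rfl, Or.inl (hU.mono _ _ _ hgs hs')⟩⟩)
  have h3 : UU f (low n q) := by
    apply h2
    refine ⟨hf, fun s' hs' => ⟨s', le_rfl, Or.inr ⟨hs', _, hU.top s', ?_⟩⟩⟩
    intro x r hr _ hrf
    exact ⟨r, le_rfl, hrf⟩
  exact (hcon q le_rfl).1 (hU.mono _ _ _ h3 (le_low q))

end Pool.MP_598ba0_lc
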